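import Pool.Agent.Helper59.SL.GoalsC

/-!
# Project SL, Galois part: packet SIXT
-/

namespace Pool.Agent.Helper70.SLG.SIXT

open Pool.Agent.Helper51.SigLeo Pool.Agent.Helper51.SixExp Pool.Agent.Helper17.SL
  Pool.Agent.Helper59.SL NumberField Module TensorProduct

universe u v w x

/-- Elements of a tensor product as sums of `N` pure tensors, for all large `N`. -/
theorem rep {E : Type w} [Field E] {G : Type u} [CommGroup G] (z : E ⊗[ℤ] Additive G) :
    ∃ N0 : ℕ, ∀ N, N0 ≤ N → ∃ (b : Fin N → E) (y : Fin N → G),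
      z = ∑ r, b r ⊗ₜ[ℤ] Additive.ofMul (y r) := by
  induction z using TensorProduct.induction_on with
  | zero =>
    refine ⟨0, fun N _ ↦ ⟨fun _ ↦ 0, fun _ ↦ 1, ?_⟩⟩
    simp
  | tmul a m =>
    refine ⟨1, fun N hN ↦ ?_⟩
    obtain ⟨N', rfl⟩ := Nat.exists_eq_add_of_le' hN
    refine ⟨Fin.cons a fun _ ↦ 0, Fin.cons m.toMul fun _ ↦ 1, ?_⟩
    rw [Fin.sum_univ_succ]
    simp
  | add x y hx hy =>
    obtain ⟨N1, h1⟩ := hx
    obtain ⟨N2, h2⟩ := hy
    refine ⟨N1 + N2, fun N hN ↦ ?_⟩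
    obtain ⟨t, rfl⟩ := Nat.exists_eq_add_of_le (le_trans (Nat.le_add_right N1 N2) hN)
    obtain ⟨b1, y1, e1⟩ := h1 N1 le_rfl
    obtain ⟨b2, y2, e2⟩ := h2 t (by omega)
    refine ⟨Fin.append b1 b2, Fin.append y1 y2, ?_⟩
    rw [Fin.sum_univ_add, e1, e2]
    simp only [Fin.append_left, Fin.append_right]

theorem thm (hSIX : S_SIX.{u, v, w, 0}) : S_SIXT.{u, v, w} := by
  intro p _ k _ _ _ _ _ Ω _ _ _ _ ι Λ E _ _ lam d l Z M hM hdl hrank
  choose N0 hN0 using fun i j ↦ rep (Z i j)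
  set N : ℕ := Finset.univ.sup fun i ↦ Finset.univ.sup (N0 i) with hN
  have hle : ∀ i j, N0 i j ≤ N := fun i j ↦
    le_trans (Finset.le_sup (f := N0 i) (Finset.mem_univ j))
      (Finset.le_sup (f := fun i ↦ Finset.univ.sup (N0 i)) (Finset.mem_univ i))
  choose b y hby using fun i j ↦ hN0 i j N (hle i j)
  refine hSIX p k Ω ι Λ E lam d l (Fin N) b
    (fun i j r ↦ Units.map (algebraMap (𝓞 Ω) Ω : 𝓞 Ω →* Ω) (y i j r)) M ?_ ?_ hdl hrank
  · intro i j r
    exact ⟨RingOfIntegers.isIntegral_coe _, RingOfIntegers.isIntegral_coe _⟩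
  · intro i j
    rw [hM i j, hby i j, map_sum, map_sum]
    refine Finset.sum_congr rfl fun r _ ↦ ?_
    rw [cc_tmul, extHom_tmul]
    congr 1

end Pool.Agent.Helper70.SLG.SIXT
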